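import Pool.Agent.Q35.DP.FF

set_option autoImplicit false

namespace Pool.Agent.Q35.DP

open FF Pool.Agent.W603.LV Pool.Agent.TH145.GH Pool.Agent.Y166.DP IntermediateField

section
variable {k K : Type} [Field k] [Field K] [Algebra k K]

theorem const_zero (P : Place k K) {c : k} (h : Ge P 1 (algebraMap k K c)) : c = 0 := by
  by_contra hc
  rcases h with h | h
  · exact hc ((map_eq_zero _).1 h)
  · rw [P.ord_const hc] at h
    omega

theorem const_eq (P : Place k K) {f : K} {a b : k} (ha : Ge P 1 (f - algebraMap k K a))
    (hb : Ge P 1 (f - algebraMap k K b)) : a = b := by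
  have h := hb.sub ha
  have e : f - algebraMap k K b - (f - algebraMap k K a) = algebraMap k K (a - b) := by
    rw [map_sub]; ring
  rw [e] at h
  exact sub_eq_zero.1 (const_zero P h)

theorem ord_unit (P : Place k K) {f : K} {c : k} (h : Ge P 1 (f - algebraMap k K c))
    (hc : c ≠ 0) : f ≠ 0 ∧ P.ord f = 0 := by
  have hf : f ≠ 0 := by
    rintro rfl
    rw [zero_sub] at h
    have := h.neg
    rw [neg_neg] at this
    exact hc (const_zero P this)
  refine ⟨hf, ?_⟩
  by_cases h0 : f - algebraMap k K c = 0
  · rw [sub_eq_zero.1 h0, P.ord_const hc]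
  · have h1 := h.resolve_left h0
    have h2 := P.ord_add_eq (f := algebraMap k K c) (g := f - algebraMap k K c)
      ((map_ne_zero _).2 hc) h0 (by rw [P.ord_const hc]; omega)
    rw [add_sub_cancel, P.ord_const hc] at h2
    exact h2.2

theorem reg_of_const (P : Place k K) {f : K} {a : k} (ha : Ge P 1 (f - algebraMap k K a)) :
    Ge P 0 f := by
  have h := (Ge.mono (M := 0) (by norm_num) ha).add (Ge.const (P := P) a)
  rwa [sub_add_cancel] at h

end

theorem pts (hinf : StmInf) (hmap : StmMap) : StmPts := by
  intro k K _ _ _ _ _ _ lam x y h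
  classical
  have hK : CharZero K := charZero_of_injective_algebraMap (algebraMap k K).injective
  have hx0 := Ell.x0 h
  have hy0 := Ell.y0 h
  obtain ⟨o, ho1, ho2, ho3⟩ := hinf k K lam x y h
  have hdeg : ∀ P : Place k K, P.deg = 1 := fun P => deg_one P
  have hne : ∀ P : Place k K, Ge P 0 x → P ≠ o := by
    rintro P hP rfl
    have := hP.resolve_left hx0
    omega
  -- the value of the equation
  have heq : ∀ (P : Place k K) (a b : k), Ge P 1 (x - algebraMap k K a) →
      Ge P 1 (y - algebraMap k K b) → b ^ 2 = a * (a - 1) * (a - lam) := by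
    intro P a b ha hb
    have hx := reg_of_const P ha
    have hy := reg_of_const P hb
    have h1 : Ge P 1 ((y - algebraMap k K b) * (y + algebraMap k K b)) := by
      have := hb.mul (hy.add (Ge.const b))
      simpa using this
    have h2 : Ge P 1 ((x - algebraMap k K a) * (x ^ 2 + (algebraMap k K a - (1 + algebraMap k K lam)) * x
        + (algebraMap k K a ^ 2 - (1 + algebraMap k K lam) * algebraMap k K a +
          algebraMap k K lam))) := by
      have e : algebraMap k K a - (1 + algebraMap k K lam) = algebraMap k K (a - (1 + lam)) := by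
        simp
      have e' : algebraMap k K a ^ 2 - (1 + algebraMap k K lam) * algebraMap k K a +
          algebraMap k K lam = algebraMap k K (a ^ 2 - (1 + lam) * a + lam) := by simp
      rw [e, e']
      have h3 : Ge P 0 (x ^ 2 + algebraMap k K (a - (1 + lam)) * x +
          algebraMap k K (a ^ 2 - (1 + lam) * a + lam)) := by
        refine Ge.add (Ge.add ?_ ?_) (Ge.const _)
        · have := hx.pow 2
          simpa using this
        · have := (Ge.const (P := P) (a - (1 + lam))).mul hx
          simpa using this
      have := ha.mul h3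
      simpa using this
    have h3 := h2.sub h1
    have e : (x - algebraMap k K a) * (x ^ 2 + (algebraMap k K a - (1 + algebraMap k K lam)) * x
        + (algebraMap k K a ^ 2 - (1 + algebraMap k K lam) * algebraMap k K a +
          algebraMap k K lam)) - (y - algebraMap k K b) * (y + algebraMap k K b) =
        algebraMap k K (b ^ 2 - a * (a - 1) * (a - lam)) := by
      have e1 := h.eqn
      simp only [map_sub, map_mul, map_pow, map_one]
      linear_combination (-1 : K) * e1
    rw [e] at h3
    exact sub_eq_zero.1 (const_zero P h3)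
  -- (i)
  have hi : ∀ P : Place k K, Ge P 0 x → ∃ a b : k, b ^ 2 = a * (a - 1) * (a - lam) ∧
      Ge P 1 (x - algebraMap k K a) ∧ Ge P 1 (y - algebraMap k K b) := by
    intro P hP
    obtain ⟨a, ha⟩ := exists_const P hP
    obtain ⟨b, hb⟩ := exists_const P (ho3 P (hne P hP)).2
    exact ⟨a, b, heq P a b ha hb, ha, hb⟩
  -- the zeros of `x - a`
  have hz : ∀ a : k, ∃ S : Finset (Place k K), (∀ w, w ∈ S ↔ 0 < w.ord (x - algebraMap k K a)) ∧
      ∑ w ∈ S, (w.ord (x - algebraMap k K a)).toNat = 2 := by
    intro a
    have htr : Transcendental k (x - algebraMap k K a) := by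
      intro hc
      apply h.tr
      have := hc.add (isAlgebraic_algebraMap (R := k) (A := K) a)
      rwa [sub_add_cancel] at this
    obtain ⟨S, hS, -, hsum⟩ := zeros (k := k) htr
    obtain ⟨S', hS', hsum'⟩ := poles (k := k) htr
    have hoa : o.ord (x - algebraMap k K a) = -2 := by
      by_cases ha : a = 0
      · rw [ha, map_zero, sub_zero, ho1]
      · have h1 : algebraMap k K a ≠ 0 := by rwa [Ne, map_eq_zero]
        have h2 := o.ord_add_eq (f := x) (g := -algebraMap k K a) hx0 (neg_ne_zero.2 h1)
          (by rw [o.ord_neg, o.ord_const ha, ho1]; norm_num)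
        rw [sub_eq_add_neg, h2.2, ho1]
    have h4 : S' = {o} := by
      refine Finset.eq_singleton_iff_unique_mem.2 ⟨(hS' o).2 (by rw [hoa]; norm_num), ?_⟩
      intro P hP
      by_contra hne'
      have h5 := ((ho3 P hne').1.sub (Ge.const (P := P) a)).resolve_left (Ell.x_ne h a)
      have h6 := (hS' P).1 hP
      omega
    rw [h4, Finset.sum_singleton, hoa, hdeg] at hsum'
    refine ⟨S, hS, ?_⟩
    rw [← hsum'] at hsum
    simp only [hdeg, mul_one] at hsum
    rw [hsum]
    rfl
  -- the conjugation
  have hc : Ell k K (algebraMap k k lam) x (-y) := by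
    refine ⟨h.lam0, h.lam1, ?_, h.tr, ?_⟩
    · rw [neg_sq]; exact h.eqn
    · rw [eq_top_iff, ← h.gen, adjoin_le_iff]
      intro z hz
      rcases hz with rfl | hz
      · exact subset_adjoin k _ (Set.mem_insert _ _)
      · rw [Set.mem_singleton_iff.1 hz]
        have := neg_mem (subset_adjoin k ({x, -y} : Set K) (Set.mem_insert_of_mem _ rfl))
        rwa [neg_neg] at this
  obtain ⟨φ, hφx, hφy, hφc⟩ := hmap k K k K lam x y x (-y) h hc
  have hφc' : ∀ c : k, φ (algebraMap k K c) = algebraMap k K c := fun c => hφc c
  have hinv : ∀ f : K, φ (φ f) = f := by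
    have hcomm : ∀ c : k, (φ.comp φ) (algebraMap k K c) = algebraMap k K c := by
      intro c
      show φ (φ (algebraMap k K c)) = _
      rw [hφc', hφc']
    let ψ : K →ₐ[k] K := { (φ.comp φ) with commutes' := hcomm }
    have hψ : ∀ f, ψ f = φ (φ f) := fun f => rfl
    intro f
    rw [← hψ]
    have hf : f ∈ adjoin k ({x, y} : Set K) := by rw [h.gen]; trivial
    have e : (AlgHom.fieldRange ψ : IntermediateField k K) = AlgHom.fieldRange ψ := rfl
    -- the equalizer is a subfield
    induction hf using adjoin_induction with
    | mem z hz =>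
      rcases hz with rfl | hz
      · rw [hψ, hφx, hφx]
      · rw [Set.mem_singleton_iff.1 hz, hψ, hφy, map_neg, hφy, neg_neg]
    | algebraMap c => exact ψ.commutes c
    | add a b _ _ ha hb => rw [map_add, ha, hb]
    | inv a _ ha => rw [map_inv₀, ha]
    | mul a b _ _ ha hb => rw [map_mul, ha, hb]
  have hφ0 : ∀ {f : K}, f ≠ 0 → φ f ≠ 0 := fun hf => (map_ne_zero φ).2 hf
  let cj : Place k K → Place k K := fun P =>
    { ord := fun f => P.ord (φ f)
      ord_zero := by rw [map_zero, P.ord_zero]
      ord_mul := by
        intro f g hf hg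
        rw [map_mul, P.ord_mul (hφ0 hf) (hφ0 hg)]
      ord_add := by
        intro f g hf hg hfg
        have := P.ord_add (hφ0 hf) (hφ0 hg) (by rw [← map_add]; exact hφ0 hfg)
        rwa [← map_add] at this
      ord_const := by
        intro c hc
        show P.ord (φ (algebraMap k K c)) = 0
        rw [hφc', P.ord_const hc]
      surj := by
        obtain ⟨t, ht0, ht⟩ := P.surj
        exact ⟨φ t, hφ0 ht0, by rw [hinv, ht]⟩ }
  have hcjord : ∀ P f, (cj P).ord f = P.ord (φ f) := fun P f => rfl
  have hcj : ∀ (P : Place k K) (n : ℤ) (f : K), Ge P n (φ f) → Ge (cj P) n f := by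
    rintro P n f (hf | hf)
    · exact Or.inl ((map_eq_zero φ).1 hf)
    · exact Or.inr hf
  have hcjx : ∀ (P : Place k K) (a : k), Ge P 1 (x - algebraMap k K a) →
      Ge (cj P) 1 (x - algebraMap k K a) := by
    intro P a ha
    apply hcj
    rw [map_sub, hφx, hφc']
    exact ha
  have hcjy : ∀ (P : Place k K) (b : k), Ge P 1 (y - algebraMap k K b) →
      Ge (cj P) 1 (y - algebraMap k K (-b)) := by
    intro P b hb
    apply hcj
    rw [map_sub, hφy, hφc', map_neg]
    have e : -y - -algebraMap k K b = -(y - algebraMap k K b) := by ring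
    rw [e]
    exact hb.neg
  -- the places over `x = a`
  have hzero : ∀ (P : Place k K) (a : k), Ge P 1 (x - algebraMap k K a) ↔
      0 < P.ord (x - algebraMap k K a) := by
    intro P a
    constructor
    · intro h1
      have := h1.resolve_left (Ell.x_ne h a)
      omega
    · intro h1
      right
      omega
  have hval : ∀ (a b : k), b ^ 2 = a * (a - 1) * (a - lam) → ∀ P : Place k K,
      Ge P 1 (x - algebraMap k K a) → Ge P 1 (y - algebraMap k K b) ∨
        Ge P 1 (y - algebraMap k K (-b)) := by
    intro a b hab P hP
    obtain ⟨a', b', h1, h2, h3⟩ := hi P (reg_of_const P hP)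
    have h4 := const_eq P hP h2
    subst h4
    have h5 : (b' - b) * (b' + b) = 0 := by linear_combination h1 - hab
    rcases mul_eq_zero.1 h5 with h6 | h6
    · left; rw [← sub_eq_zero.1 h6]; exact h3
    · right; rw [← eq_neg_of_add_eq_zero_left h6]; exact h3
  -- main statement
  have hmain : ∀ a b : k, b ^ 2 = a * (a - 1) * (a - lam) → ∃ P : Place k K,
      Ge P 1 (x - algebraMap k K a) ∧ Ge P 1 (y - algebraMap k K b) ∧
      (∀ P' : Place k K, Ge P' 1 (x - algebraMap k K a) → Ge P' 1 (y - algebraMap k K b) →
        P' = P) ∧ (b ≠ 0 → P.ord (x - algebraMap k K a) = 1) ∧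
      (b = 0 → P.ord y = 1 ∧ P.ord (x - algebraMap k K a) = 2) := by
    intro a b hab
    obtain ⟨S, hS, hsum⟩ := hz a
    have hSne : S.Nonempty := by
      rw [Finset.nonempty_iff_ne_empty]
      rintro rfl
      simp at hsum
    by_cases hb : b = 0
    · subst hb
      obtain ⟨Q, hQ⟩ := hSne
      have hev : ∀ Q ∈ S, 2 * Q.ord y = Q.ord (x - algebraMap k K a) := by
        intro Q hQ
        have hQ1 := (hzero Q a).2 ((hS Q).1 hQ)
        have hxr := reg_of_const Q hQ1
        set c : k := 3 * a ^ 2 - 2 * (1 + lam) * a + lam with hc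
        have hc0 : c ≠ 0 := by
          have h1 : a * (a - 1) * (a - lam) = 0 := by rw [← hab]; ring
          rcases mul_eq_zero.1 h1 with h1 | h1
          · rcases mul_eq_zero.1 h1 with h1 | h1
            · rw [hc, h1]
              simpa using h.lam0
            · rw [hc, sub_eq_zero.1 h1]
              intro h2
              exact h.lam1 (by linear_combination -h2)
          · have h1' : a = lam := sub_eq_zero.1 h1
            rw [hc, h1']
            intro h2
            have h3 : lam * (lam - 1) = 0 := by linear_combination h2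
            rcases mul_eq_zero.1 h3 with h4 | h4
            · exact h.lam0 h4
            · exact h.lam1 (sub_eq_zero.1 h4)
        obtain ⟨R, hR⟩ : ∃ R : K, R = x ^ 2 + algebraMap k K (a - (1 + lam)) * x +
          algebraMap k K (a ^ 2 - (1 + lam) * a + lam) := ⟨_, rfl⟩
        have hRc : Ge Q 1 (R - algebraMap k K c) := by
          have e : R - algebraMap k K c = (x - algebraMap k K a) *
              (x + algebraMap k K (2 * a - (1 + lam))) := by
            rw [hR, hc]
            simp only [map_sub, map_mul, map_pow, map_one, map_add, map_ofNat]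
            ring
          rw [e]
          have := hQ1.mul (hxr.add (Ge.const (P := Q) (2 * a - (1 + lam))))
          simpa using this
        obtain ⟨hR0, hR1⟩ := ord_unit Q hRc hc0
        have e : y ^ 2 = (x - algebraMap k K a) * R := by
          have e2 : algebraMap k K a * (algebraMap k K a - 1) * (algebraMap k K a - algebraMap k K lam)
              = 0 := by
            have := congrArg (algebraMap k K) hab
            simp only [map_sub, map_mul, map_pow, map_one, map_zero] at this
            rw [← this]; ring
          rw [h.eqn, hR]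
          simp only [map_sub, map_mul, map_pow, map_one, map_add]
          linear_combination e2
        have e3 := congrArg Q.ord e
        rw [Q.ord_pow, Q.ord_mul (Ell.x_ne h a) hR0, hR1] at e3
        push_cast at e3
        omega
      have hQe := hev Q hQ
      have hQp := (hS Q).1 hQ
      have huniq : ∀ P ∈ S, P = Q := by
        intro P hP
        by_contra hPQ
        have h6 : ∑ w ∈ ({Q, P} : Finset (Place k K)), (w.ord (x - algebraMap k K a)).toNat ≤
            ∑ w ∈ S, (w.ord (x - algebraMap k K a)).toNat :=
          Finset.sum_le_sum_of_subset (by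
            intro w hw
            rcases Finset.mem_insert.1 hw with rfl | hw
            · exact hQ
            · rw [Finset.mem_singleton.1 hw]; exact hP)
        rw [Finset.sum_pair (Ne.symm hPQ), hsum] at h6
        have h7 := hev P hP
        have h8 := (hS P).1 hP
        omega
      have h9 : S = {Q} := Finset.eq_singleton_iff_unique_mem.2 ⟨hQ, huniq⟩
      rw [h9, Finset.sum_singleton] at hsum
      have hQ1 := (hzero Q a).2 hQp
      have hyQ : Ge Q 1 (y - algebraMap k K 0) := by
        rcases hval a 0 hab Q hQ1 with h1 | h1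
        · exact h1
        · rwa [neg_zero] at h1
      refine ⟨Q, hQ1, hyQ, ?_, fun h0 => absurd rfl h0, fun _ => ⟨by omega, by omega⟩⟩
      intro P' h1 _
      exact huniq P' ((hS P').2 ((hzero P' a).1 h1))
    · -- two places
      have hex : ∃ Q : Place k K, Ge Q 1 (x - algebraMap k K a) ∧ Ge Q 1 (y - algebraMap k K b) := by
        obtain ⟨Q, hQ⟩ := hSne
        have hQ1 := (hzero Q a).2 ((hS Q).1 hQ)
        rcases hval a b hab Q hQ1 with h1 | h1
        · exact ⟨Q, hQ1, h1⟩
        · refine ⟨cj Q, hcjx Q a hQ1, ?_⟩
          have := hcjy Q (-b) h1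
          rwa [neg_neg] at this
      obtain ⟨Q, hQx, hQy⟩ := hex
      have h2x := hcjx Q a hQx
      have h2y := hcjy Q b hQy
      have hneq : ∀ P P' : Place k K, Ge P 1 (y - algebraMap k K b) →
          Ge P' 1 (y - algebraMap k K (-b)) → P ≠ P' := by
        rintro P P' h1 h2 rfl
        have := const_eq P h1 h2
        apply hb
        have h3 : (2 : k) * b = 0 := by linear_combination this
        exact (mul_eq_zero.1 h3).resolve_left two_ne_zero
      have hq : Q ∈ S := (hS Q).2 ((hzero Q a).1 hQx)
      have hq' : cj Q ∈ S := (hS _).2 ((hzero _ a).1 h2x)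
      have hge : ∀ P ∈ S, 1 ≤ (P.ord (x - algebraMap k K a)).toNat := by
        intro P hP
        have := (hS P).1 hP
        omega
      have hQQ := hneq Q (cj Q) hQy h2y
      have hsub : ({Q, cj Q} : Finset (Place k K)) ⊆ S := by
        intro w hw
        rcases Finset.mem_insert.1 hw with rfl | hw
        · exact hq
        · rw [Finset.mem_singleton.1 hw]; exact hq'
      have h6 : ∑ w ∈ ({Q, cj Q} : Finset (Place k K)), (w.ord (x - algebraMap k K a)).toNat ≤
          ∑ w ∈ S, (w.ord (x - algebraMap k K a)).toNat :=
        Finset.sum_le_sum_of_subset hsub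
      rw [Finset.sum_pair hQQ, hsum] at h6
      have h7 := hge Q hq
      have h8 := hge _ hq'
      have hord : Q.ord (x - algebraMap k K a) = 1 := by omega
      refine ⟨Q, hQx, hQy, ?_, fun _ => hord, fun h0 => absurd h0 hb⟩
      intro P' h1 h2
      by_contra hPQ
      have hPc : P' ≠ cj Q := hneq P' (cj Q) h2 h2y
      have hP' : P' ∈ S := (hS P').2 ((hzero P' a).1 h1)
      have h9 : ∑ w ∈ ({P', Q, cj Q} : Finset (Place k K)), (w.ord (x - algebraMap k K a)).toNat ≤
          ∑ w ∈ S, (w.ord (x - algebraMap k K a)).toNat :=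
        Finset.sum_le_sum_of_subset (by
          intro w hw
          rcases Finset.mem_insert.1 hw with rfl | hw
          · exact hP'
          · exact hsub hw)
      rw [Finset.sum_insert (by
        rw [Finset.mem_insert, Finset.mem_singleton]
        rintro (h0 | h0)
        · exact hPQ h0
        · exact hPc h0), Finset.sum_pair hQQ, hsum] at h9
      have h10 := hge P' hP'
      omega
  refine ⟨hi, ?_, ?_⟩
  · intro a b hab
    obtain ⟨P, h1, h2, -⟩ := hmain a b hab
    exact ⟨P, h1, h2⟩
  · intro a b P hPa hPb
    obtain ⟨Q, h1, h2, h3, h4, h5⟩ := hmain a b (heq P a b hPa hPb)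
    have hPQ := h3 P hPa hPb
    subst hPQ
    exact ⟨fun P' h6 h7 => h3 P' h6 h7, h4, h5⟩

end Pool.Agent.Q35.DP
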