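import Pool.Agent.Q35.DP.Rep
import Pool.Agent.Q35.DP.PTS
import Pool.Agent.Q178.DP.KS
import Pool.Agent.Q160.DP.PRES
import Pool.Agent.Q177.DP.PRIME
import Pool.Agent.Q277.DP.SM
import Pool.Agent.Q178.DP.KERA
import Pool.Agent.Q92.DP.Kerb
import Pool.Agent.Q177.DP.RK
import Pool.Agent.Q192.DP.EQN
import Pool.Agent.Q203.DPF.Gen
import Pool.Agent.Q94.DP.COMP
import Pool.Agent.Q94.DP.DIM
import Pool.Agent.Q119.DP.Surf
import Pool.Agent.Q119.DP.NoSurf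
import Pool.Agent.Q119.DP.Fix
import Pool.Agent.Q221.DP.HT
import Pool.Agent.Q278.DP.TAN
import Pool.Agent.Q278.DP.MOV
import Pool.Agent.Q119.DP.Asym
import Pool.Agent.Q92.DP.Genpt
import Pool.Agent.Q92.DP.Bound
import Pool.Agent.Q231.DP.PTB
import Pool.Agent.Q92.DP.Low
import Pool.Agent.Q203.DPF.Del
import Pool.Agent.Q113.DP.Basis
import Pool.Agent.Q54.DP.MODEL
import Pool.Agent.Q160.DP.LOC
import Pool.Agent.Q160.DP.REG
import Pool.Agent.Q277.DP.LINE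
import Pool.Agent.Q231.DP.RANK
import Pool.Agent.Q72.DP.SPEC
import Pool.Agent.Q203.DPF.Inj
import Pool.Agent.Q186.DP.Mp
import Pool.Agent.Q186.DP.NoOne
import Pool.Agent.Q113.DP.RR
import Pool.Agent.Q63.DP.EXT
import Pool.Agent.Q77.DP.PHI
import Pool.Agent.Q77.DP.UU
import Pool.Agent.Y179.DP.Fld

/-! Project DP: assembly. -/

set_option autoImplicit false

namespace Pool.Agent.Q35.DP

open MvPolynomial FF Pool.Agent.W603.LV Pool.Agent.TH145.GH Pool.Agent.Y166.DP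

theorem hNo1 : StmNo1 := no1 (Q203.DPF.del inf (pts inf stmMap))
theorem hDel : StmDel := Q203.DPF.del inf (pts inf stmMap)
theorem hPts : StmPts := pts inf stmMap
theorem hBasis : StmBasis := Q113.DP.basis inf hNo1
theorem hRR : StmRR := Q113.DP.rr inf hNo1 hBasis
theorem hKS : StmKS := Q178.DP.ks inf hPts hBasis
theorem hLine : StmLine := Q277.DP.line inf hNo1
theorem hSM : S_SM := Q277.DP.sm inf hDel
theorem hKera : S_KERA := Q178.DP.kera Q160.DP.reg hKS Q160.DP.pres inf hBasis hNo1 hDel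
theorem hKer : StmKer := kerb Q63.DP.ext inf hBasis hDel hKera
theorem hRank : S_RANK := Q231.DP.rank inf hBasis hRR
theorem hRK : StmRK := Q177.DP.rk hBasis inf hRank
theorem hGenpt : S_GENPT := genpt hRK Q192.DP.eqn Q203.DPF.gen Pool.Agent.Y179.DP.stmDual
theorem hBound : S_BOUND := bound inf hDel hBasis hRR Q63.DP.ext Q160.DP.loc hKer Q177.DP.prime
  hLine hSM
theorem hPhi : StmPhi := Q77.DP.phi inf hPts
theorem hUU : StmUU := Q77.DP.uu inf hPts hPhi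
theorem hHt : StmHt := Q221.DP.ht inf hPts hBasis hPhi hUU Q119.DP.fix
theorem hInj : StmInj := Q203.DPF.inj inf hPts hBasis hPhi hUU Q160.DP.pres

/-- Assembly, up to `S_PTA`. -/
theorem main (hpta : S_PTA) (lam : ℂ) (hlam : Transcendental ℚ lam) :
    (∀ (d : ℕ) (g : Fin 3 → KB ℂ lam) (h : KB ℂ lam), g ≠ 0 →
      xB ℂ lam * h ^ 2 = quart g → ht ℂ g = d →
      (∃ c : Idx d → ℂ, c ∈ cone (xB ℂ lam) (yB ℂ lam) d ∧ Repr (xB ℂ lam) (yB ℂ lam) c g h) ∧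
      ∀ c c' : Idx d → ℂ, Repr (xB ℂ lam) (yB ℂ lam) c g h → Repr (xB ℂ lam) (yB ℂ lam) c' g h →
        ∃ t : ℂ, t ≠ 0 ∧ (∀ p, c' (.inl p) = t * c (.inl p)) ∧
          ∀ p, c' (.inr p) = t ^ 2 * c (.inr p)) ∧
    (∀ p : ℕ, p.Prime → Odd p → ∀ M : Set (Idx p → ℂ),
      IsComp (cone (xB ℂ lam) (yB ℂ lam) p) M → dimA M - 1 ≤ p) ∧
    (∀ m : ℕ, 2 ≤ m → ∃ M : Set (Idx (2 * m) → ℂ),
      IsComp (cone (xB ℂ lam) (yB ℂ lam) (2 * m)) M ∧ 2 * m + 1 ≤ dimA M - 1 ∧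
        ¬ InSurface (xB ℂ lam) (yB ℂ lam) M) ∧
    ∀ A : (d : ℕ) → Set (Set (Idx d → ℂ)),
      (∀ d, ∀ M ∈ A d, InSurface (xB ℂ lam) (yB ℂ lam) M) →
      ¬ ∀ q : ℝ, 1 < q → ∃ C : ℝ, 0 < C ∧ Filter.Tendsto
        (fun d : ℕ => NN (xB ℂ lam) (yB ℂ lam) A q d / ENNReal.ofReal q ^ d) Filter.atTop
        (nhds (ENNReal.ofReal C)) := by
  have h0 : lam ≠ 0 := by
    rintro rfl
    exact hlam isAlgebraic_zero
  have h1 : lam ≠ 1 := by
    rintro rfl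
    exact hlam isAlgebraic_one
  have hE := Q54.DP.model ℂ lam h0 h1
  have hF : IsFF ℂ (KB ℂ lam) := ff ℂ _ lam _ _ hE
  have hptb : S_PTB := Q231.DP.ptb Q54.DP.model ff Q63.DP.ext Pool.Agent.Y179.DP.stmDual
    Pool.Agent.Y179.DP.stmAlg hHt hInj Q278.DP.mov hpta
  have hlow : S_LOW := low ff hRK Q192.DP.eqn stmMap Q94.DP.comp Q94.DP.dim Q72.DP.spec
    Q119.DP.surf Q119.DP.nosurf hptb
  refine ⟨?_, ?_, ?_, ?_⟩
  · intro d g h hg hq hd
    exact rep inf hBasis hRR ℂ _ lam _ _ hE d g h hg hq hd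
  · intro p hp hodd M hM
    obtain ⟨c, hc, 𝒟, h1, h2, h3⟩ := hGenpt _ lam _ _ hE hlam p M hM
    have h4 := hBound ℂ _ lam _ _ hE p hp hodd c hc 𝒟 h1 h3
    omega
  · intro m hm
    obtain ⟨M, hM, h2, h3⟩ := hlow _ lam _ _ hE m hm
    exact ⟨M, hM, by omega, h3⟩
  · intro A hA
    exact fin hGenpt hBound hlow Q119.DP.asym _ lam _ _ hE hlam A hA

end Pool.Agent.Q35.DP
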