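import Pool.Agent.Q35.DP.Plan

set_option autoImplicit false

namespace Pool.Agent.Q35.DP

open FF Pool.Agent.W603.LV Pool.Agent.TH145.GH Pool.Agent.Y166.DP IntermediateField

section
variable {k K : Type} [Field k] [Field K] [Algebra k K] {lam : k} {x y : K}

/-- the polynomial equation of `y` over `k(x)` -/
theorem ell_poly (h : Ell k K lam x y) : ∃ c : k⟮x⟯, (algebraMap k⟮x⟯ K c) = y ^ 2 := by
  have hx : x ∈ k⟮x⟯ := mem_adjoin_simple_self k x
  refine ⟨⟨y ^ 2, ?_⟩, rfl⟩
  rw [h.eqn]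
  exact mul_mem (mul_mem hx (sub_mem hx (one_mem _))) (sub_mem hx (IntermediateField.algebraMap_mem _ _))

theorem ell_top (h : Ell k K lam x y) : (k⟮x⟯)⟮y⟯ = ⊤ := by
  have h1 := adjoin_simple_adjoin_simple k x y
  have h2 : ({x, y} : Set K) = {x, y} := rfl
  have h3 : ((k⟮x⟯)⟮y⟯).restrictScalars k = ⊤ := by
    rw [h1]
    exact h.gen
  rw [eq_top_iff]
  intro z _
  have h4 : z ∈ ((k⟮x⟯)⟮y⟯).restrictScalars k := by rw [h3]; trivial
  exact h4

theorem ell_integral (h : Ell k K lam x y) : ∃ p : Polynomial k⟮x⟯, p.Monic ∧ p.natDegree = 2 ∧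
    Polynomial.aeval y p = 0 := by
  obtain ⟨c, hc⟩ := ell_poly h
  refine ⟨Polynomial.X ^ 2 - Polynomial.C c, Polynomial.monic_X_pow_sub_C c (by norm_num),
    Polynomial.natDegree_X_pow_sub_C, ?_⟩
  rw [map_sub, map_pow, Polynomial.aeval_X, Polynomial.aeval_C, hc, sub_self]

theorem ell_finite (h : Ell k K lam x y) : FiniteDimensional k⟮x⟯ K ∧
    Module.finrank k⟮x⟯ K ≤ 2 := by
  obtain ⟨p, hp, hd, hy⟩ := ell_integral h
  have hi : IsIntegral k⟮x⟯ y := ⟨p, hp, by rwa [← Polynomial.aeval_def]⟩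
  have h1 := adjoin.finiteDimensional hi
  have h2 := adjoin.finrank hi
  have h3 : (minpoly k⟮x⟯ y).natDegree ≤ 2 := by
    rw [← hd]
    exact Polynomial.natDegree_le_of_dvd (minpoly.dvd _ _ hy) hp.ne_zero
  have e := ell_top h
  have h4 : FiniteDimensional k⟮x⟯ (⊤ : IntermediateField k⟮x⟯ K) := by rw [← e]; exact h1
  have h5 : Module.finrank k⟮x⟯ (⊤ : IntermediateField k⟮x⟯ K) ≤ 2 := by rw [← e, h2]; exact h3
  refine ⟨?_, ?_⟩
  · exact LinearEquiv.finiteDimensional (IntermediateField.topEquiv (F := k⟮x⟯) (E := K)).toLinearEquiv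
  · rwa [finrank_top'] at h5

end

theorem ff : StmFF := by
  intro k K _ _ _ _ lam x y h
  have := (ell_finite h).1
  exact IsFF.of_finite h.tr this

theorem inf : StmInf := by
  intro k K _ _ _ _ _ _ lam x y h
  classical
  have : CharZero K := charZero_of_injective_algebraMap (algebraMap k K).injective
  have hx0 := Ell.x0 h
  have hy0 := Ell.y0 h
  obtain ⟨S, hS, hsum⟩ := poles (k := k) h.tr
  obtain ⟨hfin, hle⟩ := ell_finite h
  have hpos : 0 < Module.finrank k⟮x⟯ K := Module.finrank_pos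
  -- orders at the poles
  have key : ∀ P : Place k K, P.ord x < 0 → 2 * P.ord y = 3 * P.ord x := by
    intro P hP
    have e1 : ∀ c : k, P.ord (x - algebraMap k K c) = P.ord x := by
      intro c
      by_cases hc : c = 0
      · rw [hc, map_zero, sub_zero]
      · have h1 : algebraMap k K c ≠ 0 := by rwa [Ne, map_eq_zero]
        have h2 := P.ord_add_eq (f := x) (g := -algebraMap k K c) hx0 (neg_ne_zero.2 h1)
          (by rw [P.ord_neg, P.ord_const hc]; exact hP)
        rw [sub_eq_add_neg]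
        exact h2.2
    have e2 : P.ord (x - 1) = P.ord x := by
      have := e1 1
      rwa [map_one] at this
    have h3 := congrArg P.ord h.eqn
    have hx1 : x - 1 ≠ 0 := by
      have := Ell.x_ne h 1
      rwa [map_one] at this
    rw [P.ord_pow, P.ord_mul (mul_ne_zero hx0 hx1) (Ell.x_ne h lam), P.ord_mul hx0 hx1, e2, e1] at h3
    push_cast at h3
    omega
  have hdeg : ∀ P : Place k K, P.deg = 1 := fun P => deg_one P
  have hSne : S.Nonempty := by
    rw [Finset.nonempty_iff_ne_empty]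
    rintro rfl
    simp at hsum
    omega
  obtain ⟨o, ho⟩ := hSne
  have ho1 := (hS o).1 ho
  have ho2 := key o ho1
  have h2 : (2 : ℕ) ≤ (-o.ord x).toNat * o.deg := by rw [hdeg]; omega
  have h3 : ∀ P ∈ S, P = o := by
    intro P hP
    by_contra hne
    have h4 := (hS P).1 hP
    have h5 := key P h4
    have h6 : ∑ w ∈ ({o, P} : Finset (Place k K)), (-w.ord x).toNat * w.deg ≤
        ∑ w ∈ S, (-w.ord x).toNat * w.deg :=
      Finset.sum_le_sum_of_subset (by
        intro w hw
        rcases Finset.mem_insert.1 hw with rfl | hw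
        · exact ho
        · rw [Finset.mem_singleton.1 hw]; exact hP)
    rw [Finset.sum_pair (Ne.symm hne), hsum, hdeg, hdeg] at h6
    omega
  have h4 : S = {o} := Finset.eq_singleton_iff_unique_mem.2 ⟨ho, h3⟩
  rw [h4, Finset.sum_singleton, hdeg] at hsum
  refine ⟨o, by omega, by omega, ?_⟩
  intro P hP
  have hxP : Ge P 0 x := by
    right
    by_contra hc
    exact hP (h3 P ((hS P).2 (not_le.1 hc)))
  refine ⟨hxP, ?_⟩
  right
  have h5 : Ge P 0 (y ^ 2) := by
    rw [h.eqn]
    have h6 := (hxP.mul (hxP.sub (Ge.one))).mul (hxP.sub (Ge.const (P := P) lam))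
    simpa using h6
  have h6 := h5.resolve_left (pow_ne_zero _ hy0)
  rw [P.ord_pow] at h6
  push_cast at h6
  omega

end Pool.Agent.Q35.DP
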