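import Pool.Agent.Q35.DP.Plan

set_option autoImplicit false

namespace Pool.Agent.Q35.DP

open MvPolynomial FF Pool.Agent.W603.LV Pool.Agent.TH145.GH Pool.Agent.Y166.DP Filter Topology

/-- The counting function: the sum of `q ^ dim` over the components of the spaces of sections of
height `i`, `1 ≤ i ≤ d`, which are not in `A`. `IsComp (cone x y i) M` says that `M` is an irreducible
component of the cone over the space of the sections of height `i`, so `dimA M - 1` is the dimension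
of the corresponding component of the space of sections. -/
noncomputable def NN {K : Type} [Field K] [Algebra ℂ K] (x y : K)
    (A : (d : ℕ) → Set (Set (Idx d → ℂ))) (q : ℝ) (d : ℕ) : ENNReal :=
  ∑ i ∈ Finset.Icc 1 d, ∑' M : {M : Set (Idx i → ℂ) // IsComp (cone x y i) M ∧ M ∉ A i},
    ENNReal.ofReal q ^ (dimA M.1 - 1)

theorem fin (hg : S_GENPT) (hb : S_BOUND) (hl : S_LOW) (ha : StmAsym) (K : Type) [Field K]
    [Algebra ℂ K] [IsFF ℂ K] (lam : ℂ) (x y : K) (hE : Ell ℂ K lam x y)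
    (hlam : Transcendental ℚ lam) (A : (d : ℕ) → Set (Set (Idx d → ℂ)))
    (hA : ∀ d, ∀ M ∈ A d, InSurface x y M) :
    ¬ ∀ q : ℝ, 1 < q → ∃ C : ℝ, 0 < C ∧
      Tendsto (fun d : ℕ => NN x y A q d / ENNReal.ofReal q ^ d) atTop (𝓝 (ENNReal.ofReal C)) := by
  refine ha (fun i => {M : Set (Idx i → ℂ) // IsComp (cone x y i) M ∧ M ∉ A i})
    (fun i M => dimA M.1 - 1) ?_ ?_
  · rintro p hp hodd ⟨M, hM, -⟩
    obtain ⟨c, hc, 𝒟, h1, h2, h3⟩ := hg K lam x y hE hlam p M hM
    have h4 := hb ℂ K lam x y hE p hp hodd c hc 𝒟 h1 h3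
    show dimA M - 1 ≤ p
    omega
  · intro m hm
    obtain ⟨M, hM, h1, h2⟩ := hl K lam x y hE m hm
    refine ⟨⟨M, hM, fun h => h2 (hA _ M h)⟩, ?_⟩
    show 2 * m + 1 ≤ dimA M - 1
    omega

end Pool.Agent.Q35.DP
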