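import Pool.Agent.Y166.DP.Stm

/-!
# Project DP: Geometric Manin's Conjecture for del Pezzo fibrations fails

`B : y ^ 2 = x (x - 1) (x - lam)`, `K` its function field over an algebraically closed field `k` of
characteristic `0`. The sections of height `d` are the points `x h ^ 2 = g 0 ^ 4 + g 1 ^ 4 + g 2 ^ 4`
over `K` with `ht g = d`. For an odd prime `d` all components have dimension at most `d`, for even
`d` there is a component of dimension at least `d + 1`.

The statements `StmXXX` are those of the starting library `Pool.Agent.Y166.DP.Stm`; the additional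
statements `S_XXX` are here. The docstring `JOB XXX` contains the complete proof for the job `XXX`.
-/

set_option autoImplicit false
set_option linter.unusedSectionVars false

namespace Pool.Agent.Q35.DP

open MvPolynomial FF Pool.Agent.W603.LV Pool.Agent.TH145.GH Pool.Agent.Y166.DP

/-! ### Elementary facts (proved here) -/

section
variable {k K : Type} [Field k] [Field K] [Algebra k K] {lam : k} {x y : K}

theorem Ell.x_ne (h : Ell k K lam x y) (c : k) : x - algebraMap k K c ≠ 0 := by
  intro h0
  apply h.tr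
  rw [sub_eq_zero.1 h0]
  exact isAlgebraic_algebraMap c

theorem Ell.x0 (h : Ell k K lam x y) : x ≠ 0 := by
  have := Ell.x_ne h 0
  rwa [map_zero, sub_zero] at this

theorem Ell.y0 (h : Ell k K lam x y) : y ≠ 0 := by
  intro h0
  have h1 := h.eqn
  rw [h0, zero_pow (by norm_num)] at h1
  have h2 := Ell.x_ne h 1
  rw [map_one] at h2
  exact mul_ne_zero (mul_ne_zero (Ell.x0 h) h2) (Ell.x_ne h lam) h1.symm

/-- A lift of a derivation `D` of the constants with `D lam = 0`, `D' x = 0` kills `y`. -/
theorem lift_y [CharZero k] (h : Ell k K lam x y) {D : Derivation ℤ k k} {D' : Derivation ℤ K K}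
    (hl : Lifts D D') (h0 : D lam = 0) (hx : D' x = 0) : D' y = 0 := by
  have h1 := congrArg D' h.eqn
  have h2 : D' (y ^ 2) = 2 * y * D' y := by
    rw [pow_two, D'.leibniz]
    simp only [smul_eq_mul]
    ring
  have h3 : D' (x * (x - 1) * (x - algebraMap k K lam)) = 0 := by
    have e1 : D' (algebraMap k K lam) = 0 := by rw [hl, h0, map_zero]
    have e2 : D' (1 : K) = 0 := D'.map_one_eq_zero
    rw [D'.leibniz, D'.leibniz, map_sub, map_sub, hx, e1, e2]
    simp
  rw [h2, h3] at h1
  have h4 : (2 : K) ≠ 0 := by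
    have : CharZero K := charZero_of_injective_algebraMap (algebraMap k K).injective
    exact two_ne_zero
  exact (mul_eq_zero.1 h1).resolve_left (mul_ne_zero h4 (Ell.y0 h))

theorem lift_fn {D' : Derivation ℤ K K} (hx : D' x = 0) (hy : D' y = 0) (j : ℕ) :
    D' (fn x y j) = 0 := by
  unfold fn
  split_ifs
  · exact D'.map_one_eq_zero
  · rw [D'.leibniz_pow, hx]; simp
  · rw [D'.leibniz, D'.leibniz_pow, hx, hy]; simp

/-- The lift acts on the coordinates. -/
theorem lift_fsum {D : Derivation ℤ k k} {D' : Derivation ℤ K K}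
    (hl : Lifts D D') (hx : D' x = 0) (hy : D' y = 0) {N : ℕ} (c : Fin N → k) :
    D' (fsum x y c) = fsum x y (fun j => D (c j)) := by
  unfold fsum
  rw [map_sum]
  refine Finset.sum_congr rfl fun j _ => ?_
  rw [D'.leibniz, lift_fn hx hy, hl]
  simp [mul_comm]

end

/-! ### Group A

JOB FF. `theorem ff : StmFF`. `K = k(x)(y)`, `y` is integral over `k(x)`, so `K` is finite over
`k⟮x⟯`; use `FF.IsFF.of_finite`.

JOB INF. `theorem inf : StmInf`. By `FF.poles` (with `deg_one`: all places have degree one)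
`∑_{P : ord x < 0} (- ord x) = finrank k⟮x⟯ K ≤ 2` (as `K = k⟮x⟯⟮y⟯`, `y` of degree `≤ 2`) and there is
at least one pole. At a pole `2 ord y = 3 ord x` (by the equation), so `ord x` is even, `≤ -2`. Hence
there is exactly one pole `o`, and `ord_o x = -2`, `ord_o y = -3`. At the other places `x` is regular,
so `y` is (its square is a polynomial in `x`).

JOB MAP. `theorem stmMap : StmMap`. Both `k₀[X][Y] → K₀` and `k₀[X][Y] → K` (mapping `X, Y` to
`x₀, y₀`, resp. `x, y`) have the kernel `(Y ^ 2 - X (X - 1) (X - lam))`: modulo this polynomial every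
element is `p(X) + q(X) Y`, and `p(x) + q(x) y = 0` implies `p ^ 2 = q ^ 2 X (X - 1) (X - lam)` (first
in `k[X]` as `x` is transcendental over `k`), so `q = 0` by the parity of the degrees and `p = 0`. `K₀`
is the fraction field of the image (as `k₀(x₀, y₀) = K₀`). Alternative: only show that the kernel of
the first is contained in the kernel of the second (the second need not be computed: a polynomial in
the kernel of the first is a multiple of the equation) and that elements outside the kernel of the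
first are not in the kernel of the second.

JOB PTS. `theorem pts : StmInf → StmMap → StmPts`. (i) `P` is a place with `x` regular: `x - a`, `y - b`
vanish at `P` for constants `a`, `b` (`exists_const`), and the equation holds for them. (ii) Let
`σ : K → K` be the `k`-automorphism with `σ x = x`, `σ y = - y` (`StmMap` for `Ell k K lam x (-y)`,
it is an involution); if `P` is a place then `f ↦ P.ord (σ f)` is a place `P'`; if `P` lies over
`(a, b)` then `P'` lies over `(a, -b)`. The zeros of `x - a` (there is one by `FF.zeros`) have orders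
with the sum `finrank k⟮x - a⟯ K = finrank k⟮x⟯ K = 2` (the pole `o` has order `2`, `FF.poles`). Each
zero lies over `(a, b)` or `(a, -b)`. If `b ≠ 0` a zero `P` and `P'` are different, so these are all
zeros and have order `1`. If `b = 0` the equation gives `2 ord y = ord (x - a)` (as `0, 1, lam` are
distinct), so `ord (x - a) = 2`, `ord y = 1` and the zero is unique.

JOB DEL. `theorem del : StmInf → StmPts → StmDel`. Take `D ≠ 0` (`exists_der`), `D x ≠ 0`
(`der_ne_zero`), `δ := (2 y / D x) • D`. Differentiate the equation: `δ y = cub' lam x`. `vo P δ` is the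
order of `δ π` for every uniformizer `π` (see `vo`, `der_mul` in `W603/LV/Can.lean`). At `(a, b)`,
`b ≠ 0`: `π = x - a`, `δ π = 2 y`. At `(a, 0)`: `π = y`, `δ y = cub' a ≠ 0` there. At `o`:
`π = x / y`, `δ π = (2 y ^ 2 - x cub' lam x) / y ^ 2 = 2 - x cub' / y ^ 2`, numerator
`2 x (x-1) (x-lam) - x (3 x ^ 2 - …) = - x ^ 3 + …` of order `-6`, so order `0`.

JOB NOONE. `theorem no1 : StmDel → StmNo1`. `K = k(f)` by `FF.poles` (`finrank k⟮f⟯ K = 1`). For every
`P ≠ P₀` let `c` be the value of `f` at `P`; the zeros of `f - c` have orders with sum `1`, so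
`f - c` is a uniformizer and `δ f = δ (f - c)` has order `0` at `P` (`vo P δ = 0`). At `P₀` the function
`1 / f` is a uniformizer, `δ (1 / f) = - δ f / f ^ 2` has order `0`, so `δ f` has order `-2`. This
contradicts `sum_ord`.

JOB BASIS. `theorem basis : StmInf → StmNo1 → StmBasis`. By `StmInf` `o` is the place at infinity,
so `ord_o x = -2`, `ord_o y = -3`; the orders of the `fn x y j` are different, whence (ii). (iii): the
direction from right to left is clear. The other one by induction on `N ≥ 1`. `N = 1`: if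
`ord_o f = -1` use `StmNo1`; otherwise `f` is regular everywhere, so constant (`const_of_hgt` or
`FF.poles`). `N → N + 1`: if `ord_o f = -(N + 1)` then `f / fn x y N` has order `0` at `o`, subtract the
constant `c` with `ord_o (f - c fn x y N) ≥ -N`.

JOB RR. `theorem rr : StmInf → StmNo1 → StmBasis → StmRR`. By `StmBasis` `ell (N o) = N` for `N ≥ 1`,
so `γ = 0` in `FF.riemann` and `ddeg D ≤ ell D` for all `D`. If `ddeg D = 1` then `ell D ≥ 1`, so `D` is
equivalent to an effective divisor of degree `1`, a single place `P₀` (`ell_add_divisor`), and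
`ell P₀ ≤ 1`: a nonconstant function in `LL P₀` has `ord_{P₀} = -1` and contradicts `StmNo1`. If
`ddeg D = n ≥ 1` use `FF.ell_le` for `D - (n - 1) o ≤ D`.

JOB MODEL. `theorem model : StmModel` (`WeierstrassCurve.Affine.CoordinateRing`, `crv` is the curve
`Y ^ 2 = X ^ 3 - (1 + lam) X ^ 2 + lam X`).
-/

/-! ### Group B

JOB EXT. `theorem ext : StmExt`. Uniqueness: the difference kills `k(x)` and `K` is algebraic over
`k(x)` (`FF.IsFF.isAlgebraic`), characteristic `0`. Existence: let `t` be a transcendence basis of `k`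
over `ℚ`; `t ∪ {x}` is a transcendence basis of `K` over `ℚ`; `Pool.Agent.W602.GT.exists_der` gives a
`ℚ`-derivation `D'` of `K` with `D' t = D t`, `D' x = 0`, and `D' = D` on `k` because `k` is algebraic
over `ℚ(t)`.

JOB LOC. `theorem loc : StmLoc`. Let `π` be a uniformizer. `wr δ D' (f g) = f ^ 3 wr δ D' g`,
`quart (f g) = f ^ 4 quart g`, so we may multiply `g` by a power of `π` and assume `mo P g = 0`: all
`g i` are regular, one is a unit. Replace `D'` by `D'' = D' - (D' π / δ π) δ`: the determinant does not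
change (row operation), `D'' π = 0`, `D''` maps constants to constants, so `D''` preserves the local
ring (`reg_of_zero`), and so does `δ` (as `vo P δ = 0`, `der_mul`). Put `ord (quart g) = n ≥ 0`.
If `n = 0` the determinant is regular. If `n ≥ 1` then `n ≥ 2` as it is even. The vector
`q i = 4 (g i) ^ 3` has a unit coordinate and `∑ g i q i = 4 quart g`, `∑ (δ g i) q i = δ (quart g)`,
`∑ (D'' g i) q i = D'' (quart g)` have orders `≥ n`, `≥ n - 1`, `≥ n`. With `M` the matrix of the
determinant, `det M • q = adj M (M q)`, so `ord (det M) ≥ n - 1` (or `det M = 0`), and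
`n ≤ 2 (n - 1)`.

JOB REG. `theorem reg : StmReg`. Let `π` be a uniformizer at `P`; by `reg_of_unif` (with `N = 0`) it
is enough that `D' π` is zero or regular. Suppose `ord (D' π) = -N < 0`. With
`D'' = D' - (D' π) ∂`, `∂` the `k`-derivation with `∂ π = 1` (`der_reg`: it preserves the local ring),
`D''` preserves the local ring (`reg_of_zero`). For `f = π ^ m u`, `u` a unit, `m ≥ 1`:
`D' f = π ^ m D'' u + (D' π) (m π ^ (m - 1) u + π ^ m ∂ u)` has order exactly `m - 1 - N`.
Let `R = k[S]` (`Algebra.adjoin k S`): all elements are regular at `P` and `D' R ⊆ R`. Claim: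
`N + 1 ∣ ord f` for all `f ∈ R`, `f ≠ 0`: induction on `ord f = m ≥ 0`: if `m ≥ 1` then `D' f ≠ 0` is in `R`
of order `m - 1 - N`, which is `≥ 0`, and `N + 1` divides it. Every element of `K` is a quotient of
two elements of `R`, so `N + 1` divides `ord π = 1`, a contradiction.

JOB KS. `theorem ks : StmInf → StmPts → StmBasis → StmKS`. `D' x` is regular outside `o`, and at `o` its
order is at least `-3` (`x = π ^ (-2) u`). So `D' x = α + β x + γ y` (`StmBasis`). Differentiate the
equation: `2 y D' y = cub' lam x * D' x + D lam * (x - x ^ 2)`. `D' y` is regular at the points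
`(0, 0)`, `(1, 0)`, `(lam, 0)`, so the right hand side vanishes there: `lam α = 0`;
`(1 - lam) (α + β) = 0`; then `D lam * lam * (1 - lam) = 0`. So `D' x = γ y`, `D lam = 0`,
`D' y = (γ / 2) cub' lam x`; `b = γ / 2`.

JOB PRES. `theorem pres : StmPres`. With `D' = D'' + (D' π) ∂` as in JOB REG (`D'' π = 0`).
(i) `f = π ^ n u`, `n ≠ 0`, `u` a unit: `0 = D' f` gives
`(D' π) (n u + π ∂ u) = - π D'' u`, and `n u + π ∂ u` is a unit. (ii) `f = π ^ n u`, `u` regular:
`D' f = n π ^ (n - 1) (D' π) u + π ^ n D' u` and `D' u` is regular (`reg_of_unif`).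

JOB PRIME. `theorem prime : StmPrime`. Let `mo P` be the minimal order. (a) There are constants
`a i`, `b i` such that `A = ∑ a i g i`, `B = ∑ b i g i` satisfy: for all `P`,
`min (ord A) (ord B) = mo P g` (`B` any nonzero combination; for each of the finitely many `P` with
`ord B > mo P` the combinations `A` with `ord A > mo P` form a proper subspace of `k ^ 3`, and `k` is
infinite). (b) `f = A / B` is not constant if `ht g > 0`, and by `FF.poles`
`finrank k⟮f⟯ K = ∑ max (- ord f) 0 = ∑ (ord B - mo P) = ht g = p` (`sum_ord B = 0`). (c) Let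
`L = k(g i / B)` be the field generated by the ratios; `k⟮f⟯ ≤ L ≤ K`, so `[K : L]` is `1` or `p`. If it
is `1`, the second alternative holds (the field generated by the `g i / g i₀` is the same field).
Otherwise `L = k⟮f⟯`, so `g i / B = U(f) / V(f)` with coprime polynomials; `V` is constant: a root `c`
of `V` would give a place with `f = c` (`FF.zeros` for `f - c`) at which `g i / B` has a pole although
`f` has none, but `ord (g i / B) ≥ mo P - ord B = - (pole order of f)`; and `deg U ≤ 1` by the same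
inequality at a pole of `f`. So the three functions `g i / B` are in `k + k f` and are linearly
dependent.

JOB LINE. `theorem line : StmInf → StmNo1 → StmLine`. One of the `g`, say `g 2` (symmetry), is
`α g 0 + β g 1` and the other two have the height `ht g` (`ht_le_of_comb` twice), which is odd, so they
are not proportional (`ht` would be `0`) and not zero. `quart g = Q (g 0, g 1)` with
`Q = s ^ 4 + t ^ 4 + (α s + β t) ^ 4`, a nonzero binary quartic form (`1 + α ^ 4`, `1 + β ^ 4`,
`6 α ^ 2 β ^ 2` are not all zero), a product of four linear forms. `ord_P x` is even for all `P`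
(`2 ord y = ord x` at a zero of `x`, `ord_o x = -2`). Case 1: a linear form `ℓ` has odd multiplicity `e`
in `Q`: at every place at most one linear form (up to constants) has an order larger than `m = mo P`,
so if `ord ℓ > m` then `2 ord h = ord x + e ord ℓ + (4 - e) m`, hence `ord ℓ - m` is even; so
`ht g = ∑ (ord ℓ - m)` (`sum_ord`) is even, a contradiction. Case 2: all multiplicities are even:
`Q = c (ℓ₁ ℓ₂) ^ 2`, so `x` is a square `r ^ 2` in `K`; `ord_o r = -1` and `r` is regular elsewhere, a
contradiction to `StmNo1`.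

JOB SM. `theorem sm : StmInf → StmDel → S_SM`, see below.
-/

/-- JOB SM. There is no nonconstant map from an elliptic curve to the Fermat quartic.
Proof: suppose `quart g = 0`. Let `δ` be the derivation of `StmDel`. `w = g × δ g` (cross product) is
not zero: otherwise the ratios `g i / g j` are killed by `δ`, so constant (`const_of_der`), and the
height is `0`. `q = (g i ^ 3)` satisfies `q · g = 0`, `q · δ g = δ (quart g) / 4 = 0`, so `w = f q` for
some `f ≠ 0`. At every place `P` let `m = mo P g`: the minimal order of `q` is `3 m`, that of `w` is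
at least `2 m` (write `g = π ^ m u`: `w = π ^ (2 m) (u × δ u)` and `δ` preserves the local ring). So
`ord f ≥ - m` for all `P`, and `0 = ∑ ord f ≥ ht g > 0`. -/
def S_SM : Prop :=
  ∀ (k K : Type) [Field k] [Field K] [Algebra k K] [CharZero k] [IsAlgClosed k] [IsFF k K]
    (lam : k) (x y : K), Ell k K lam x y → ∀ g : Fin 3 → K, 0 < ht k g → quart g ≠ 0

/-- JOB KERA. `theorem kera : StmReg → StmKS → StmPres → StmInf → StmBasis → StmNo1 → StmDel → S_KERA`.
Put `g i = fsum x y (c i)`; `0 < d = ht g`, so not all ratios are constant. (a) `wr δ D' g = 0`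
is a linear relation between `g`, `δ g`, `D' g`; `g`, `δ g` are linearly independent over `K`
(otherwise `δ` kills all ratios, which are then constant, `const_of_der`, and the height is `0`), so
`D' g = A g + B δ g`. Put `D'' = D' - B δ`, again a lift of `D`; it kills all the ratios. (b) `D''`
preserves all local rings: for the place `P` choose `i₁` with `ord (g i₁) = mo P g` and use `StmReg`
with `S = {g i / g i₁}`. (c) `StmKS`: `D lam = 0` and `D'' x = b' (2 y)`; as `D' x = 0`, `B = - b'`
is a constant, and we put `b = B`. (d) Let `b = 0`. Then `D' g = A g` and `D'` kills `x` and `y`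
(`lift_y`), so it acts on coordinates (`lift_fsum`). At `o`: `x / y` is a uniformizer killed by `D'`,
so `D'` preserves the orders `≥ n` (`StmPres` (ii)) and `A = D' (g i) / g i` (for `i` with
`ord_o (g i) = mo o g`) is regular at `o`. At `P ≠ o` the functions `g i` are regular and `D'`
preserves the local ring (by (b)); since `∑_P mo P = - d` and `mo o ≥ - (d + 1)`, there is at most
one `z ≠ o` with `mo z ≠ 0`, and then `mo z = 1`. So `A` is regular at all `P ≠ z`, and
`ord_z A ≥ -1` (`D'` preserves the local ring at `z`). By `StmNo1` `A` is regular at `z`, so constant. -/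
def S_KERA : Prop :=
  ∀ (k K : Type) [Field k] [Field K] [Algebra k K] [CharZero k] [IsAlgClosed k] [IsFF k K]
    (lam : k) (x y : K), Ell k K lam x y → ∀ (d : ℕ) (c : Fin 3 × Fin (d + 1) → k),
    1 ≤ d → ht k (fun i => fsum x y fun j => c (i, j)) = d →
    (∀ i₀, (fsum x y fun j => c (i₀, j)) ≠ 0 → IntermediateField.adjoin k
      (Set.range fun i => (fsum x y fun j => c (i, j)) / (fsum x y fun j => c (i₀, j))) = ⊤) →
    ∀ δ : Derivation k K K, δ x = 2 * y → ∀ (D : Derivation ℤ k k) (D' : Derivation ℤ K K),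
    Lifts D D' → D' x = 0 → wr δ D' (fun i => fsum x y fun j => c (i, j)) = 0 →
    D lam = 0 ∧ ∃ (A : K) (b : k), (∀ i, D' (fsum x y fun j => c (i, j)) =
        A * (fsum x y fun j => c (i, j)) + algebraMap k K b * δ (fsum x y fun j => c (i, j))) ∧
      (b = 0 → ∃ a : k, A = algebraMap k K a)

/-- JOB KERB. `theorem kerb : StmExt → StmInf → StmBasis → StmDel → S_KERA → StmKer`.
For `D ∈ 𝒟` let `D'` be the lift with `D' x = 0` (`StmExt`; it is unique, so `D ↦ D'` is linear over
`k`: `(a D)' = a D'`). By `S_KERA` `D lam = 0`, `D' g = A g + b δ g` with unique `A`, `b`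
(`g`, `δ g` are linearly independent over `K`: otherwise `δ` kills the ratios, they are constant and
the height is `0`), so `A` and `b` are linear in `D`. If `b = 0` then `A` is a constant; if `b = 0`
and `A = 0` then `D' g = 0`, so `D` kills all `c p` (`lift_y`, `lift_fsum`, `StmBasis` (ii)) and
`D = 0`. So `𝒟 → k`, `D ↦ b`, has a kernel of dimension at most `1`. -/
def S_KERB : Prop := True

/-- JOB RANK. `theorem rank : StmInf → StmBasis → StmRR → S_RANK`.
The span of the products of the `g i` with the functions with poles only at `o` of order at most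
`M = d + 2` has dimension `M + ht g`. Proof. `g i = fsum x y (c i)` has poles only at `o`, of order
at most `d + 1`; `g ≠ 0` (`StmBasis` (ii)), `h = ht g ≤ d + 1`, `h ≥ 0` (`Base.ht_nonneg`). The span `V`
is contained in `LL E`, `E = (M + d + 1) o - Z` where `Z(P) = mo P g + (d + 1) [P = o] ≥ 0`,
`ddeg E = M + h ≥ 1`, so `ell E = M + h` by `StmRR`. Conversely there are constants `a i`, `b i` such
that `A = ∑ a i g i`, `B = ∑ b i g i` satisfy `min (ord A) (ord B) = mo P g` for all `P` (`B` any nonzero
combination; for each of the finitely many `P` with `ord B > mo P` the combinations with order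
`> mo P` form a proper subspace of `k ^ 3`, and `k` is infinite). Let `W = LL (M o)`, of dimension `M`;
`V` contains the image of `W × W → K`, `(f, f') ↦ f A + f' B`, whose kernel is isomorphic (by `f`) to
`{f : f A / B ∈ W, f ∈ W} = LL (M o - B')`, where `B'(P) = ord B - mo P ≥ 0` has degree `h`
(`sum_ord`): `f A / B` has order `≥ - M [P = o]` iff `ord f ≥ ord B - ord A - M [P = o]`, together with
`ord f ≥ - M [P = o]` this is `ord f ≥ B'(P) - M [P = o]`. By `StmRR` (`M - h ≥ 1`) the kernel has
dimension `M - h`, so the image has dimension `2 M - (M - h) = M + h`. -/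
def S_RANK : Prop :=
  ∀ (k K : Type) [Field k] [Field K] [Algebra k K] [CharZero k] [IsAlgClosed k] [IsFF k K]
    (lam : k) (x y : K), Ell k K lam x y → ∀ (d : ℕ) (c : Fin 3 × Fin (d + 1) → k), c ≠ 0 →
    (Module.finrank k (Submodule.span k (Set.range fun p : Fin 3 × Fin (d + 2) =>
      (fsum x y fun j => c (p.1, j)) * fn x y p.2)) : ℤ) =
      ((d + 2 : ℕ) : ℤ) + ht k (fun i => fsum x y fun j => c (i, j))

/-! ### Group C

JOB RK. `theorem rk : StmBasis → StmInf → S_RANK → StmRK`. (a) There are constants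
`s i j l ∈ k₀`, depending only on `lam`, with `fn x y i * fn x y j = ∑_{l < i + j + 2} s i j l fn x y l`
for all `k`, `K`, `x`, `y` with `Ell` (`y ^ 2 = x ^ 3 - (1 + lam) x ^ 2 + lam x`). (b) So the products
in `S_RANK` have the coordinates `∑_j c (p.1, j) s j p.2 l`, `l < 2 d + 3`, with respect to the
`fn x y l`, which are linearly independent (`StmBasis` (ii)); the dimension of the span is the rank of
the matrix `A(c)` of these coordinates. (c) For `n = d + 2 + e`: `e ≤ ht` iff `n ≤ rank A(c)` iff some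
`n × n` minor of `A(c)` is not zero. `S` is the set of the `n × n` minors of the matrix `A(X)` over
`MvPolynomial (Fin 3 × Fin (d + 1)) k₀`.

JOB EQN. `theorem eqn : StmEqn`. Modulo `Y ^ 2 = X (X - 1) (X - lam)` both sides are
`p(X) + q(X) Y` with `p`, `q` polynomials in `X` with coefficients in `MvPolynomial (Idx d) k₀`; `T` is the
set of the coefficients of the differences. Uses: `x` is transcendental over `k`, and
`p(x) + q(x) y = 0` implies `p = q = 0` (`p ^ 2 = q ^ 2 X (X - 1) (X - lam)`, parity of degrees).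
No assumption on the characteristic is needed.

JOB GEN. `theorem gen : StmGen`. Let `A = ℂ[σ] / I`, `n` its transcendence degree; choose
`j : Fin n → σ` such that the images of the variables `X (j i)` in `A` are algebraically independent
over `ℂ` (`exists_isTranscendenceBasis_subset` or similar, for the generating set of the variables).
Let `k₁ ⊆ ℂ` be a countable subfield which contains `lam` and the coefficients of `h` and of finitely
many generators of `I` (`IntermediateField.adjoin ℚ` of a finite set). `I₁ = I ∩ k₁[σ]` is prime and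
contains the generators of `I`. `E = Frac (k₁[σ] / I₁)`, a field extension of `k₁` in which the images of
the `X (j i)` are algebraically independent over `k₁` (`k₁[σ] / I₁ → A` is injective). Extend them by
further variables to a transcendence basis of `E` over `k₁` (finite). `ℂ` has infinite transcendence
degree over the countable field `k₁` (cardinality), so there are `t` in `ℂ` algebraically independent
over `k₁`, one for each element of the basis; map the basis to `t` and extend to `E → ℂ` over `k₁`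
(`IsAlgClosed.lift` for the algebraic extension `E / k₁(basis)`). `ξ` is the image of the variables.
`F(ξ) = 0` for `F ∈ I₁`, hence for `F ∈ I`; `h(ξ) ≠ 0` as `h ∉ I₁` and `E → ℂ` is injective; `lam ∈ k₁` is
transcendental over `ℚ` and the `ξ (j i) = t i` are algebraically independent over `k₁`, so
`(lam, ξ (j i))` is algebraically independent over `ℚ`.

JOB COMP. `theorem comp : StmComp`. Zorn: the union of a chain of irreducible sets is irreducible
(`van` of the union is the intersection of the chain of prime ideals `van M i`).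

JOB DIM. `theorem dim : StmDim`. `van M ≤ van Z`, so there is a surjection of the coordinate rings;
`Algebra.trdeg` decreases under surjections (domains) and is finite (`≤` the number of variables).

JOB SPEC. `theorem spec : StmSpec`. `𝔭 = {F : aeval ξ F = 0}` is prime, `μ ∉ 𝔭`. If `F` vanishes on `Z`
then `μ F` vanishes on the zero set of `𝔭`, so `μ F ∈ 𝔭` by the Nullstellensatz
(`MvPolynomial.vanishingIdeal_zeroLocus_eq_radical`), so `F ∈ 𝔭`. `k₀[σ] / 𝔭 ≅ k₀[ξ] ⊆ k`, whose
transcendence degree is that of `k₀(ξ)`, and at most that many elements algebraic over `k₀(ξ)` are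
algebraically independent.

JOB SURF. `theorem surf : StmSurf`. `Ψ (gv x₀ y₀ C)` for indeterminates `C` is an element of
`K₀[Idx d]`; it is a sum `∑ e m F m` with `e m ∈ K₀` linearly independent over `k₀` and
`F m ∈ k₀[Idx d]` (choose a basis of `K₀` over `k₀`). For `c ∈ Z` we get `∑ e m F m (c) = 0`, so
`F m (c) = 0` and `F m ∈ van Z`, so `F m (ξ) = 0`, and
`(map φ Ψ) (gv (φ x₀) (φ y₀) ξ) = ∑ φ (e m) F m (ξ) = 0`.

JOB NOSURF. `theorem nosurf : StmNoSurf`. Induction on `n`. `n = 0`: `Ψ` is a nonzero constant. Let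
`n > 0` and `Ψ(g) = 0` (write `Ψ` for `map φ Ψ`). `∑ Ψ_i (g) g i = n Ψ (g) = 0` (Euler,
`Ψ_i` the partial derivatives), `∑ Ψ_i (g) D₁ (g i) = D₁ (Ψ(g)) = 0` (`D₁` kills the coefficients), the
same for `D₂`. The determinant is not zero, so `Ψ_i (g) = 0` for all `i`. By induction all `Ψ_i = 0`, so
`n Ψ = 0` (Euler), a contradiction.
-/

/-! ### Group E

JOB PHI. `theorem phi : StmInf → StmPts → StmPhi` (the function is `Pool.Agent.Y166.DP.phi`). Put
`X = x - α ^ 2`, `σ = α β + α γ + β γ`, `s = α + β + γ`, `Nf = y + α β γ - s X`. Then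
`Nf * (y - α β γ + s X) = X (X - σ) ^ 2` (use `x - 1 = X + β ^ 2`, `x - lam = X + γ ^ 2`) and
`px = α ^ 2 + σ`, `py = s σ - α β γ`. `py ≠ 0`: `α + β = 0` or `α + γ = 0` or `β + γ = 0` would give
`β ^ 2 = α ^ 2`, or `γ ^ 2 = α ^ 2`, or `β ^ 2 = γ ^ 2`, i.e. `1 = 0`, `lam = 0`, `lam = 1`. `p` is the place over
`(α ^ 2, α β γ)`, `p'` the place over `(px, py)` (`StmPts`). At `p'`: the second factor has the value
`2 py ≠ 0` and `X - σ = x - px` has order `1`, `X` order `0`: `ord Nf = 2`. At `p`: `Nf` has the value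
`2 α β γ ≠ 0`, `ord X = 1`. At `(α ^ 2, - α β γ)`: the second factor has the value `- 2 α β γ`, so
`ord Nf = ord X = 1`. At `o`: `ord Nf = -3`, `ord X = -2`. At the other places `ord X = 0`, and
`ord Nf = 0`: if `X - σ` does not vanish both factors are units; if it vanishes the place is over
`(px, - py)` and `Nf` has the value `- 2 py`.

JOB UU. `theorem uu : StmInf → StmPts → StmPhi → StmUU`. `r0` vanishes at `p'`, has poles only at `o`
of order `≤ m + 1`; `r1` vanishes at `p'` and `(0, 0)`, its pole at `o` has order `≤ m + 2`; `phi` has the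
divisor `2 p' - p - o`, `x` the divisor `2 (0, 0) - 2 o`. Read off the orders of `r0 ^ 2 / phi` and
`r1 ^ 2 / (x phi)`. (If `Ge p 1 (x - a)` and `Ge p 1 (y - b)` then
`Ge p 1 (fn x y j - algebraMap (fn a b j))`; the place `p` of the last claim is unique by `StmPts`.)

JOB HT. `theorem ht : StmInf → StmPts → StmBasis → StmPhi → StmUU → S_FIX → StmHt`. `u = uu …`; let
`mo P = min (ord (u 0), ord (u 1))`. `s (m - 1) ≠ 0` (a derivation maps it to `1`). At `o`: `r1` has
order exactly `-(m + 2)`, so `ord (u 1) = -(2 m + 1)` and `mo o = -(2 m + 1)`. Claim: `mo p = 1` and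
`mo P = 0` for the other places; then `ht = 2 m`. All `mo P ≥ 0` for `P ≠ o`, `mo p ≥ 1` by `StmUU`.
`mo p = 1`: `ord_p (u 1) = 2 ord_p (r1) + 1`, so it suffices `r1 (p) ≠ 0`: if
`0 = r1 (p) = ∑ s j (fn_{j+2} (p) - (fn_{j+2} (p') / px) α ^ 2)`, apply the derivation `D` with
`D (s i) = δ_{i 1}` (`m ≥ 2`; `D` kills `lam`, `α`, so `β`, `γ`, the coordinates of `p` and `p'`):
`α ^ 4 = px α ^ 2`, so `α ^ 2 = px`, i.e. `σ = 0`, excluded. `P = p'`: `ord (u 1) = 2 ord (r1) - 2`, and
`ord (r1) = 1`: otherwise `δ r1` (`δ x = 2 y`, `δ y = cub'`) vanishes at `p'`; apply the derivations with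
`D (s i) = δ_{i 0}` and `δ_{i 1}`: `cub' (px) px = 2 py ^ 2` and `4 px ^ 2 py = 2 px ^ 2 py`, a
contradiction to `px py ≠ 0` (alternatively expand `r1` in `x - px`). `P = (0, 0)`:
`ord (u 1) = 2 ord (r1) - 2`, and `ord r1 = 1` since `r1 = s 0 y + (terms of order ≥ 2)`, `s 0 ≠ 0`.
Let `P = (a, b)` be another place, `P ≠ p`, and suppose `u 0` and `u 1` vanish at `P`. Then `r0 (P) = 0`
and `r1 (P) = 0`. For `D = D_j` as in the hypothesis: `r0 (P) = 0` is a nontrivial relation
`∑_{j} r' j fn a b j = 0` (`r' 0 = - ∑ r j fn_{j+1} (p')`, `r' (j + 1) = r j`) with `D r' = 0`, so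
`D a = D b = 0` by `S_FIX`. Apply `D` to `r1 (P) = 0`, for `j = 0` and `j = 1`:
`b - (py / px) a = 0`, `a ^ 2 - px a = 0`. So `a = 0`, `b = 0` or `a = px`, `b = py`, the excluded
places.

JOB INJ. `theorem inj : StmInf → StmPts → StmBasis → StmPhi → StmUU → StmPres → StmInj`. `D' y = 0`
(`lift_y`). `r0 ≠ 0` and `r1 ≠ 0` (`StmBasis` (ii)). `u 0` has a positive order at `p` (`StmUU`),
`D' (u 0) = 0`, so by `StmPres` `Ge p 1 (D' π)` for a uniformizer, and `D'` preserves the order: the
constant `D' (x - α ^ 2) = - D (α ^ 2)` vanishes at `p`, so `D α = 0` (`α ≠ 0`), and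
`D β = D γ = 0` as `β γ ≠ 0`. So `D' (phi) = 0`, and `D' (r0 ^ 2) = 0` gives `D' r0 = 0`, i.e.
`∑ D (r j) (fn x y (j + 1) - const) = 0` and `D (r j) = 0` by `StmBasis` (ii) (linear independence).
The same with `r1`: `∑ D (s j) (fn x y (j + 2) - const * x) = 0`, `fn x y 1 = x`.

JOB TAN. `theorem tan : StmTan`. `t`, `s` as in `gg`; `gg = s (1, τ, a) + t (τ ^ 3, -1, 0)`. With
`a ^ 4 = -(1 + τ ^ 4)`:
`quart = t ^ 2 (6 τ ^ 2 (1 + τ ^ 4) s ^ 2 + 4 τ (τ ^ 8 - 1) s t + (τ ^ 12 + 1) t ^ 2)`, the bracket is
`6 τ ^ 2 (1 + τ ^ 4) u 0 u 1` with `u 0 = s - r₊ t`, `u 1 = s - r₋ t`,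
`r± = (-2 (τ ^ 4 - 1) ± ω) / (6 τ)`. Heights: `gg` and `u` are constant linear combinations of each
other (`a`, `ω`, `τ ≠ 0`), use `Y166.DP.ht_le_of_comb` twice.

JOB MOV. `theorem mov : StmMov`. Let `N = (1, τ ^ 3, a ^ 3)`, so `N · (1, τ, a) = 0`,
`N · (τ ^ 3, -1, 0) = 0`, `N · gg = 0`. `u 0 ≠ u 1` and `u 1 ≠ 0` etc. because `0 < ht u`; so `t ≠ 0`.
(i) `D' (gg) = 0` gives `(D' N) · gg = 0`: `a ^ 3 D a = - τ ^ 3 D τ`,
`(D' N) · gg = D τ (3 τ ^ 2 gg 1 - 3 (τ ^ 3 / a) gg 2) = - 3 τ ^ 2 t D τ`, so `D τ = 0`, `D a = 0`,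
`D ω = 0`, and `D' s = D' t = 0` (`gg 2 = a s`, `gg 1 = τ s - t`), so `D' (u i) = 0`. (ii)
`N · gg = 0`, `N · D₂' gg = 0`, `N · D₁' gg = - (D₁' N) · gg = 3 τ ^ 2 t D₁ τ ≠ 0`; and `gg`, `D₂' gg` are
linearly independent because `u` and `(D₂' u 0, 0)` are (`u 1 D₂' (u 0) ≠ 0`, the map
`u ↦ gg` is linear and injective, its coefficients are killed by `D₂`). Then the determinant is not
zero.

JOB ASYM. `theorem asym : StmAsym`. `S_i(q) = ∑' M, q ^ (dm i M)`, `T_d = ∑_{i ≤ d} S_i`. If
`T_d / q ^ d → C(q)` then `S_d / q ^ d = T_d / q ^ d - T_{d - 1} / q ^ d → c(q) = C(q) (1 - 1 / q)`. For an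
odd prime `p` `S_p / q ^ p = ∑' q ^ (dm - p)` with exponents `≤ 0` is nonincreasing in `q`, so `c` is
nonincreasing. For even `d = 2 m ≥ 4` `S_d / q ^ d ≥ q`, so `c(q) ≥ q`. Hence
`q ≤ c(q) ≤ c(2)` for all `q ≥ 2`, a contradiction for `q = c(2) + 2`.
-/

/-- JOB FIX. `theorem fix : S_FIX`. `F = {c : D c = 0}` is a subfield of `k`, and an element of `k`
algebraic over `F` is in `F` (characteristic `0`: apply `D` to its minimal equation). If `a` is
algebraic over `F` then so is `b`. If `a` is transcendental over `F`, write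
`∑ r j fn a b j = p(a) + q(a) b`, `p`, `q ∈ F[X]` not both zero; then
`p ^ 2 = q ^ 2 X (X - 1) (X - lam)` in `F[X]`, impossible by the parity of the degrees. -/
def S_FIX : Prop :=
  ∀ (k : Type) [Field k] [CharZero k] (D : Derivation ℤ k k) (lam a b : k), D lam = 0 →
    b ^ 2 = a * (a - 1) * (a - lam) → ∀ (N : ℕ) (r : Fin N → k), r ≠ 0 → (∀ j, D (r j) = 0) →
    ∑ j, r j * fn a b j = 0 → D a = 0 ∧ D b = 0

/-! ### The upper bound -/

/-- JOB GENPT. `theorem genpt : StmRK → StmEqn → StmGen → StmDual → S_GENPT`.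
`I = van M` is prime. Use `StmRK` (`k₀ = k = ℂ`) with `e = d` (`S`), with `e = d + 1` (`S'`), and
`StmEqn` (`T`). There is `c₀ ∈ M`; `gv x y c₀ ≠ 0`, so some coordinate `X (inl p) ∉ I`; `ht = d`, so
some `F ∈ S` (renamed to `Idx d`) is not in `I`. `h = F * X (inl p) ∉ I`. Take `ξ` and `j` from
`StmGen`. `T` and `S'` vanish on `M`, so they are in `I` and vanish at `ξ`; so `c = ξ` is in
`cone x y d`. `StmDual` for the algebraically independent family `Fin.cons lam (ξ ∘ j)` over `ℚ` gives
derivations `D i`; as `ℤ`-derivations they are linearly independent over `ℂ`, and their span `𝒟` has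
dimension `dimA M + 1`. If `D = ∑ a i D i` kills `lam` and the `ξ` then all `a i = 0`. -/
def S_GENPT : Prop :=
  ∀ (K : Type) [Field K] [Algebra ℂ K] [IsFF ℂ K] (lam : ℂ) (x y : K), Ell ℂ K lam x y →
    Transcendental ℚ lam → ∀ (d : ℕ) (M : Set (Idx d → ℂ)), IsComp (cone x y d) M →
    ∃ c ∈ cone x y d, ∃ 𝒟 : Submodule ℂ (Derivation ℤ ℂ ℂ), FiniteDimensional ℂ 𝒟 ∧
      Module.finrank ℂ 𝒟 = dimA M + 1 ∧ ∀ D ∈ 𝒟, D lam = 0 → (∀ p, D (c p) = 0) → D = 0

/-- JOB BOUND. `theorem bound : StmInf → StmDel → StmBasis → StmRR → StmExt → StmLoc → StmKer →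
StmPrime → StmLine → S_SM → S_BOUND`. `g = gv x y c`, `ht g = d > 0`, `Q = quart g ≠ 0` (`S_SM`),
`(xh) ^ 2 = x Q`. (a) If `D ∈ 𝒟` kills `lam` and the coordinates `c (inl p)` then it kills all `c p`:
its lift with `D' x = 0` kills `y`, `g`, so `D' ((xh) ^ 2) = 0`, `xh ≠ 0`, `D' (xh) = 0`, and
`StmBasis` (ii), `lift_fsum`. So `D = 0`. (b) `StmPrime` and `StmLine` (with `h = xh / x`; the height
is odd): the ratios generate `K`. (c) `ord_P x` is even for all `P` (`2 ord y = ord x` at a zero of
`x`, `ord_o x = -2`, `0` otherwise), so `ord_P Q = 2 ord_P (xh) - ord_P x` is even. (d) For `D ∈ 𝒟` let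
`D'` be the lift with `D' x = 0` (unique, so linear in `D`), `Φ(D) = wr δ D' g`, a linear map over
`k`. By `StmLoc` its values are in `LL E`, `E(P) = - (mo P g + ord_P Q / 2)`, `ddeg E = ht g = d`
(`sum_ord Q = 0`), and `ell E = d` by `StmRR`. (e) The kernel has dimension at most `2` by `StmKer`
(if `D'` is another lift of `D` the determinant is the same, as the lifts differ by a multiple of
`δ`, `der_smul`). So `finrank 𝒟 ≤ d + 2`. -/
def S_BOUND : Prop :=
  ∀ (k K : Type) [Field k] [Field K] [Algebra k K] [CharZero k] [IsAlgClosed k] [IsFF k K]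
    (lam : k) (x y : K), Ell k K lam x y → ∀ (d : ℕ), d.Prime → Odd d → ∀ c ∈ cone x y d,
    ∀ 𝒟 : Submodule k (Derivation ℤ k k), FiniteDimensional k 𝒟 →
    (∀ D ∈ 𝒟, D lam = 0 → (∀ p, D (c p) = 0) → D = 0) → Module.finrank k 𝒟 ≤ d + 2

/-! ### The lower bound -/

/-- JOB PTA. `theorem pta : StmInf → StmPts → StmBasis → StmPhi → StmUU → StmTan → S_PTA`.
By `StmUU` the functions `u = uu …` have poles only at `o`, of order at most `2 m + 1`, so the same
holds for the `gg τ a ω u i` and these are `fsum x y (c i)` (`StmBasis` (iii), `N = 2 m + 1`). By `StmTan`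
`x * quart (gg …) = (const) * ((u 1 - u 0) * const)² * (r0 * r1 / phi) ²` is a square `z ^ 2`, with
`z = const * (u 1 - u 0) * r0 * r1 / phi` (the constants have square roots); `z` is regular outside
`o` and its pole has order at most `4 m + 3` because this holds for `z ^ 2` (`x` has divisor
`2 (0,0) - 2 o`), so `z = fsum x y c'` with `N = 2 (2 m) + 3`. `ht (gg …) = ht u = 2 m` by `StmTan`. -/
def S_PTA : Prop :=
  ∀ (k K : Type) [Field k] [Field K] [Algebra k K] [CharZero k] [IsAlgClosed k] [IsFF k K]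
    (lam : k) (x y : K), Ell k K lam x y → ∀ α β γ : k,
    β ^ 2 = α ^ 2 - 1 → γ ^ 2 = α ^ 2 - lam → α * β * γ ≠ 0 → α * β + α * γ + β * γ ≠ 0 →
    ∀ (m : ℕ) (r s : Fin m → k), 2 ≤ m → ht k (uu x y α β γ r s) = 2 * m →
    ∀ τ a ω : k, a ^ 4 = -(1 + τ ^ 4) → ω ^ 2 = -2 * (τ ^ 8 + τ ^ 4 + 1) → τ ≠ 0 → ω ≠ 0 → a ≠ 0 →
    ∃ ξ : Idx (2 * m) → k, ξ ∈ cone x y (2 * m) ∧ gv x y ξ = gg τ a ω (uu x y α β γ r s)

/-- JOB PTB. `theorem ptb : StmModel → StmFF → StmExt → StmDual → StmAlg → StmHt → StmInj → StmMov →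
S_PTA → S_PTB`. `k` is the algebraic closure of the field of rational functions over `ℂ` in
`2 m + 2` variables `α`, `τ`, `r j`, `s j` (`z`; in `Type`), `K = KB k lam`, `x = xB`, `y = yB`
(`StmModel`, `StmFF`). Choose `β`, `γ`, `a`, `ω` as roots; the conditions `≠ 0` hold because `α`, `τ` are
transcendental over `ℂ` (e.g. `α β + α γ + β γ = 0` implies an algebraic equation for `α` over `ℂ`:
`(α β) ^ 2 - (α γ) ^ 2 …`; or: it would give `β γ = - α (β + γ)`, square twice). `StmDual` (over `ℂ`)
gives the derivations needed in `StmHt`, so `ht (uu) = 2 m`, and `S_PTA` gives `ξ`. Every `z i` is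
algebraic over `ℂ(ξ)` by `StmAlg`: if a derivation `D` of `k` over `ℂ` kills the `ξ` then its lift `D'`
with `D' x = 0` (`StmExt`) kills `y` (`lift_y`) and `gv x y ξ = gg τ a ω u` (`lift_fsum`), so `D τ = 0`
and `D' (u i) = 0` (`StmMov`), so `D α = 0`, `D (r j) = D (s j) = 0` (`StmInj`). The two derivations:
`D₁ = ∂ / ∂τ`, `D₂ = ∂ / ∂(r 0)` (dual derivations), with the lifts `D'` with `D' x = 0`; they kill
`x`, `y` and `ℂ`. `D₂ τ = 0`, `D₂' (u 1) = 0` (`u 1` involves only `α, β, γ, s`) and
`D₂' (u 0) = 2 r0 (fn x y 1 - const) / phi ≠ 0`; `u 1 ≠ 0` (`s ≠ 0`), so `StmMov` (ii) applies. -/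
def S_PTB : Prop :=
  ∀ lam : ℂ, lam ≠ 0 → lam ≠ 1 → ∀ m : ℕ, 2 ≤ m →
    ∃ (k K : Type) (_ : Field k) (_ : Field K) (_ : Algebra k K) (_ : CharZero k)
      (_ : IsAlgClosed k) (_ : IsFF k K) (_ : Algebra ℂ k) (x y : K),
      Ell k K (algebraMap ℂ k lam) x y ∧ ∃ ξ : Idx (2 * m) → k, ξ ∈ cone x y (2 * m) ∧
        (∃ z : Fin (2 * m + 2) → k, AlgebraicIndependent ℂ z ∧
          ∀ i, IsAlgebraic (IntermediateField.adjoin ℂ (Set.range ξ)) (z i)) ∧
        ∃ D₁ D₂ : Derivation ℤ K K, (∀ c : ℂ, D₁ (algebraMap k K (algebraMap ℂ k c)) = 0 ∧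
            D₂ (algebraMap k K (algebraMap ℂ k c)) = 0) ∧
          D₁ x = 0 ∧ D₁ y = 0 ∧ D₂ x = 0 ∧ D₂ y = 0 ∧ wr D₁ D₂ (gv x y ξ) ≠ 0

/-- JOB LOW. `theorem low : StmRK → StmEqn → StmMap → StmComp → StmDim → StmSpec → StmSurf →
StmNoSurf → S_PTB → S_LOW`. Take `k`, `K`, `x`, `y`, `ξ` from `S_PTB`. `StmRK` (`k₀ = ℂ`) with
`e = 2 m` (`S`) and `e = 2 m + 1` (`S'`), `StmEqn` (`T`). There are `F ∈ S` and a coordinate
`X (inl p)` which do not vanish at `ξ`; `μ = F * X (inl p)` (renamed to `Idx`). `Z` is the set of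
`StmSpec`; `Z ⊆ cone x₀ y₀ (2 m)`: `T` and `S'` vanish at `ξ`, so at the points of `Z`, `μ ≠ 0`. `Z` is
irreducible with `2 m + 2 ≤ dimA Z` (`StmSpec`), contained in a component `M` (`StmComp`),
`dimA Z ≤ dimA M` (`StmDim`). If `InSurface x₀ y₀ M` with `Ψ`: `φ : K₀ → K` from `StmMap` (`φ x₀ = x`,
`φ y₀ = y`); `StmSurf` (`van Z` consists of the `F` with `F(ξ) = 0`) gives
`eval (gv x y ξ) (map φ Ψ) = 0`, but `D₁`, `D₂` kill `φ K₀` (it is generated by `x`, `y` and `ℂ`), so
this contradicts `StmNoSurf`. -/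
def S_LOW : Prop :=
  ∀ (K₀ : Type) [Field K₀] [Algebra ℂ K₀] (lam : ℂ) (x₀ y₀ : K₀), Ell ℂ K₀ lam x₀ y₀ →
    ∀ m : ℕ, 2 ≤ m → ∃ M : Set (Idx (2 * m) → ℂ), IsComp (cone x₀ y₀ (2 * m)) M ∧ 2 * m + 2 ≤ dimA M ∧
      ¬ InSurface x₀ y₀ M

end Pool.Agent.Q35.DP
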