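import Pool.Agent.Q35.DP.Fin
import Pool.Agent.Q113.DP.Basis

set_option autoImplicit false

namespace Pool.Agent.Q35.DP

open MvPolynomial FF Pool.Agent.W603.LV Pool.Agent.TH145.GH Pool.Agent.Y166.DP
open Pool.Agent.Q113.DP (ge_fsum ge_fsum_inf fsum_inj)

/-- The point `c` of the cone represents the point `(g, h)` of the generic fibre
`x h ^ 2 = g 0 ^ 4 + g 1 ^ 4 + g 2 ^ 4`: the functions with the coordinates `c` are `f g i` and
`x f ^ 2 h` for a nonzero function `f`. -/
def Repr {k K : Type} [Field k] [Field K] [Algebra k K] (x y : K) {d : ℕ} (c : Idx d → k)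
    (g : Fin 3 → K) (h : K) : Prop :=
  ∃ f : K, f ≠ 0 ∧ (∀ i, gv x y c i = f * g i) ∧ xh x y c = x * (f ^ 2 * h)

section
variable {k K : Type} [Field k] [Field K] [Algebra k K]

theorem fsum_sub_smul (x y : K) {N : ℕ} (c c' : Fin N → k) (t : k) :
    fsum x y (fun j => c' j - t * c j) = fsum x y c' - algebraMap k K t * fsum x y c := by
  unfold fsum
  rw [Finset.mul_sum, ← Finset.sum_sub_distrib]
  refine Finset.sum_congr rfl fun j _ => ?_
  rw [map_sub, map_mul]
  ring

theorem quart_mul (f : K) (g : Fin 3 → K) : quart (fun i => f * g i) = f ^ 4 * quart g := by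
  unfold quart
  ring

theorem ge_of_sq {P : Place k K} {z : K} {n : ℤ} (h : Ge P (2 * n) (z ^ 2)) : Ge P n z := by
  by_cases hz : z = 0
  · exact Or.inl hz
  · have h1 := h.resolve_left (pow_ne_zero _ hz)
    rw [P.ord_pow] at h1
    right
    push_cast at h1
    omega

variable [CharZero k] [IsAlgClosed k] [IsFF k K]

theorem ddeg_ofFinite (F : Place k K → ℤ) (hF : (Function.support F).Finite) :
    ddeg (Finsupp.ofSupportFinite F hF) = ∑ᶠ P, F P := by
  unfold ddeg Finsupp.sum
  rw [finsum_eq_sum_of_support_subset (s := (Finsupp.ofSupportFinite F hF).support)]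
  · refine Finset.sum_congr rfl fun P _ => ?_
    show F P * (P.deg : ℤ) = F P
    rw [deg_one]
    simp
  · intro P hP
    simpa [Finsupp.ofSupportFinite] using hP

end

theorem rep (hinf : StmInf) (hb : StmBasis) (hrr : StmRR) :
    ∀ (k K : Type) [Field k] [Field K] [Algebra k K] [CharZero k] [IsAlgClosed k] [IsFF k K]
      (lam : k) (x y : K), Ell k K lam x y → ∀ (d : ℕ) (g : Fin 3 → K) (h : K), g ≠ 0 →
      x * h ^ 2 = quart g → ht k g = d →
      (∃ c : Idx d → k, c ∈ cone x y d ∧ Repr x y c g h) ∧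
      ∀ c c' : Idx d → k, Repr x y c g h → Repr x y c' g h →
        ∃ t : k, t ≠ 0 ∧ (∀ p, c' (.inl p) = t * c (.inl p)) ∧
          ∀ p, c' (.inr p) = t ^ 2 * c (.inr p) := by
  intro k K _ _ _ _ _ _ lam x y hE d g h hg hq hd
  classical
  obtain ⟨o, ho1, ho2, ho3⟩ := hinf k K lam x y hE
  obtain ⟨-, hb2, hb3⟩ := hb k K lam x y hE o (by omega)
  have hx0 : x ≠ 0 := Ell.x0 hE
  have hsupp : (Function.support fun P : Place k K => mo P g).Finite := mo_supp g
  obtain ⟨E, hEdef⟩ : ∃ E : Place k K →₀ ℤ, E = Finsupp.ofSupportFinite (fun P => mo P g) hsupp +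
    Finsupp.single o ((d : ℤ) + 1) := ⟨_, rfl⟩
  have hEo : E o = mo o g + ((d : ℤ) + 1) := by
    rw [hEdef, Finsupp.add_apply, Finsupp.single_eq_same]
    rfl
  have hEP : ∀ P, P ≠ o → E P = mo P g := by
    intro P hP
    rw [hEdef, Finsupp.add_apply, Finsupp.single_eq_of_ne hP, add_zero]
    rfl
  have hdeg : ddeg E = 1 := by
    rw [hEdef, ddeg_add, ddeg_ofFinite, ddeg_single, deg_one]
    unfold ht at hd
    push_cast
    linarith
  have hell : ell E = 1 := by rw [hrr k K lam x y hE E (by rw [hdeg]), hdeg]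
  have hfin : Module.finrank k (LL E) = 1 := by
    unfold ell at hell
    exact_mod_cast hell
  obtain ⟨f, hf, hf0⟩ := exists_ne_zero_of_ell_pos (D := E) (by rw [hell]; norm_num)
  have hford := hf.resolve_left hf0
  constructor
  · have hGo : ∀ i, Ge o (-(((d + 1 : ℕ)) : ℤ)) (f * g i) := by
      intro i
      have h1 : Ge o (-(mo o g + ((d : ℤ) + 1))) f := by
        right
        rw [← hEo]
        exact hford o
      have h2 := h1.mul (ge_mo o g i)
      refine Ge.mono ?_ h2
      push_cast
      linarith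
    have hGP : ∀ P, P ≠ o → ∀ i, Ge P 0 (f * g i) := by
      intro P hP i
      have h1 : Ge P (-(mo P g)) f := by
        right
        rw [← hEP P hP]
        exact hford P
      have h2 := h1.mul (ge_mo P g i)
      refine Ge.mono ?_ h2
      linarith
    have hc : ∀ i, ∃ c : Fin (d + 1) → k, f * g i = fsum x y c := fun i =>
      (hb3 (d + 1) (Nat.succ_pos d) (f * g i)).1 ⟨fun P hP => hGP P hP i, hGo i⟩
    choose c hc using hc
    have hz2 : (x * (f ^ 2 * h)) ^ 2 = x * quart (fun i => f * g i) := by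
      rw [quart_mul, ← hq]
      ring
    have hqP : ∀ (P : Place k K) (n : ℤ), (∀ i, Ge P n (f * g i)) →
        Ge P (4 * n) (quart (fun i => f * g i)) := by
      intro P n hn
      unfold quart
      have h4 : ∀ i, Ge P (4 * n) ((f * g i) ^ 4) := by
        intro i
        simpa using (hn i).pow 4
      exact ((h4 0).add (h4 1)).add (h4 2)
    obtain ⟨c', hc'⟩ := (hb3 (2 * d + 3) (by omega) (x * (f ^ 2 * h))).1 ⟨by
        intro P hP
        apply ge_of_sq
        rw [hz2]
        have h1 := (ho3 P hP).1.mul (hqP P 0 (hGP P hP))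
        simpa using h1, by
        apply ge_of_sq
        rw [hz2]
        have h0 : Ge o (-2) x := Or.inr ho1.ge
        have h1 := h0.mul (hqP o _ hGo)
        refine Ge.mono ?_ h1
        push_cast
        linarith⟩
    obtain ⟨C, hC⟩ : ∃ C : Idx d → k, C = Sum.elim (fun p => c p.1 p.2) c' := ⟨_, rfl⟩
    have hgv : gv x y C = fun i => f * g i := by
      funext i
      rw [hc i, hC]
      rfl
    have hxh : xh x y C = x * (f ^ 2 * h) := by
      rw [hc', hC]
      rfl
    refine ⟨C, ⟨?_, ?_, ?_⟩, f, hf0, fun i => congrFun hgv i, hxh⟩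
    · rw [hgv]
      obtain ⟨i, hi⟩ := Function.ne_iff.1 hg
      intro h0
      exact mul_ne_zero hf0 hi (congrFun h0 i)
    · rw [hxh, hgv, hz2]
    · rw [hgv, ht_smul hg hf0, hd]
  · -- uniqueness
    have key : ∀ (c : Idx d → k) (F : K), F ≠ 0 → (∀ i, gv x y c i = F * g i) → F ∈ LL E := by
      intro c F hF hc
      right
      intro P
      obtain ⟨i, hi0, hi⟩ := exists_mo P hg
      have hne : F * g i ≠ 0 := mul_ne_zero hF hi0
      have h1 : P.ord (F * g i) = P.ord F + mo P g := by rw [P.ord_mul hF hi0, hi]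
      by_cases hP : P = o
      · subst hP
        have h2 := ge_fsum_inf hE P ho1 ho2 (fun j => c (.inl (i, j)))
        have h3 : fsum x y (fun j => c (.inl (i, j))) = F * g i := hc i
        rw [h3] at h2
        have h4 := h2.resolve_left hne
        rw [hEo]
        push_cast at h4
        linarith
      · have h2 := ge_fsum (ho3 P hP).1 (ho3 P hP).2 (fun j => c (.inl (i, j)))
        have h3 : fsum x y (fun j => c (.inl (i, j))) = F * g i := hc i
        rw [h3] at h2
        have h4 := h2.resolve_left hne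
        rw [hEP P hP]
        linarith
    rintro c c' ⟨f₁, hf₁, hc₁, hx₁⟩ ⟨f₂, hf₂, hc₂, hx₂⟩
    have h1 := key c f₁ hf₁ hc₁
    have h2 := key c' f₂ hf₂ hc₂
    obtain ⟨t, ht⟩ := (finrank_eq_one_iff_of_nonzero' (⟨f₁, h1⟩ : LL E)
      (fun h0 => hf₁ (congrArg Subtype.val h0))).1 hfin ⟨f₂, h2⟩
    have ht' : f₂ = algebraMap k K t * f₁ := by
      have := congrArg Subtype.val ht
      rw [← Algebra.smul_def]
      exact this.symm
    refine ⟨t, ?_, ?_, ?_⟩
    · rintro rfl
      apply hf₂
      rw [ht', map_zero, zero_mul]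
    · rintro ⟨i, j⟩
      have h3 : fsum x y (fun j => c' (.inl (i, j)) - t * c (.inl (i, j))) = 0 := by
        rw [fsum_sub_smul]
        have e1 : fsum x y (fun j => c' (.inl (i, j))) = f₂ * g i := hc₂ i
        have e2 : fsum x y (fun j => c (.inl (i, j))) = f₁ * g i := hc₁ i
        rw [e1, e2, ht']
        ring
      exact sub_eq_zero.1 (congrFun (hb2 _ _ h3) j)
    · intro j
      have h3 : fsum x y (fun j => c' (.inr j) - t ^ 2 * c (.inr j)) = 0 := by
        rw [fsum_sub_smul]
        have e1 : fsum x y (fun j => c' (.inr j)) = x * (f₂ ^ 2 * h) := hx₂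
        have e2 : fsum x y (fun j => c (.inr j)) = x * (f₁ ^ 2 * h) := hx₁
        rw [e1, e2, ht', map_pow]
        ring
      exact sub_eq_zero.1 (congrFun (hb2 _ _ h3) j)

end Pool.Agent.Q35.DP
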